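import Pool.Agent.Helper42.Th.Main
import Pool.Agent.Helper31.T3.Restr

/-!
An automorphism which fixes the fixed points of `a` maps the region where `a` moves up to itself.
-/

set_option autoImplicit false

namespace Pool.Agent.Helper52.OC

open Pool.Agent.Helper42.Th
open Pool.Agent.Helper31.OrderAct
open Pool.Agent.Helper71.Rot
open Pool.Agent.Helper71.Tree
open Pool.Agent.Helper31.T3 (Reg reg_lt reg_self)

section order

variable {Ω : Type*} [CompleteLinearOrder Ω]

/-- An automorphism which commutes with nothing but fixes the fixed points of `a` maps the region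
where `a` moves up to itself. -/
lemma reg_of_fix {a k : Ω ≃o Ω} (hk : ∀ z, a z = z → k z = z) {z : Ω} (hz : z < a z) :
    Reg a z (k z) := by
  have mono : Monotone fun n : ℕ => (a ^ n) z := by
    refine monotone_nat_of_le_succ fun n => ?_
    rw [pow_succ, RelIso.mul_apply]
    exact (a ^ n).monotone hz.le
  have anti : Antitone fun n : ℕ => (a⁻¹ ^ n) z := by
    refine antitone_nat_of_succ_le fun n => ?_
    rw [pow_succ, RelIso.mul_apply]
    refine (a⁻¹ ^ n).monotone ?_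
    rw [← a.le_iff_le, RelIso.apply_inv_self]
    exact hz.le
  have f1 : a (⨆ n : ℕ, (a ^ n) z) = ⨆ n : ℕ, (a ^ n) z := by
    rw [a.map_iSup]
    apply le_antisymm
    · refine iSup_le fun n => ?_
      rw [← RelIso.mul_apply, ← pow_succ']
      exact le_iSup (fun n : ℕ => (a ^ n) z) (n + 1)
    · refine iSup_le fun n => ?_
      refine le_trans (mono (Nat.le_succ n)) ?_
      change (a ^ (n + 1)) z ≤ _
      rw [pow_succ', RelIso.mul_apply]
      exact le_iSup (fun n : ℕ => a ((a ^ n) z)) n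
  have f2 : a (⨅ n : ℕ, (a⁻¹ ^ n) z) = ⨅ n : ℕ, (a⁻¹ ^ n) z := by
    rw [a.map_iInf]
    apply le_antisymm
    · refine le_iInf fun n => ?_
      refine (iInf_le (fun n : ℕ => a ((a⁻¹ ^ n) z)) (n + 1)).trans ?_
      rw [pow_succ', RelIso.mul_apply, RelIso.apply_inv_self]
    · refine le_iInf fun n => ?_
      rcases n with _ | n
      · refine (iInf_le (fun n : ℕ => (a⁻¹ ^ n) z) 0).trans ?_
        simpa using hz.le
      · refine (iInf_le (fun n : ℕ => (a⁻¹ ^ n) z) n).trans ?_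
        rw [pow_succ', RelIso.mul_apply, RelIso.apply_inv_self]
  have h1 : k z < ⨆ n : ℕ, (a ^ n) z := by
    rw [← hk _ f1, k.lt_iff_lt]
    refine lt_of_lt_of_le hz ?_
    have := le_iSup (fun n : ℕ => (a ^ n) z) 1
    simpa using this
  have h2 : ⨅ n : ℕ, (a⁻¹ ^ n) z < k z := by
    rw [← hk _ f2, k.lt_iff_lt]
    refine lt_of_le_of_lt (iInf_le (fun n : ℕ => (a⁻¹ ^ n) z) 1) ?_
    rw [pow_one, ← a.lt_iff_lt, RelIso.apply_inv_self]
    exact hz
  obtain ⟨n, hn⟩ := lt_iSup_iff.mp h1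
  obtain ⟨m, hm⟩ := iInf_lt_iff.mp h2
  refine ⟨max n m, ?_, ?_⟩
  · exact (anti (le_max_right n m)).trans hm.le
  · exact hn.le.trans (mono (le_max_left n m))

lemma up_of_fix {a k : Ω ≃o Ω} (hk : ∀ z, a z = z → k z = z) {z : Ω} (hz : z < a z) :
    k z < a (k z) := reg_lt hz (reg_of_fix hk hz)

lemma reg_trans {a : Ω ≃o Ω} {z y w : Ω} (h1 : Reg a z y) (h2 : Reg a y w) : Reg a z w := by
  obtain ⟨n, h3, h4⟩ := h1
  obtain ⟨m, h5, h6⟩ := h2
  refine ⟨m + n, ?_, ?_⟩
  · rw [pow_add, RelIso.mul_apply]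
    exact ((a⁻¹ ^ m).monotone h3).trans h5
  · rw [pow_add, RelIso.mul_apply]
    exact h6.trans ((a ^ m).monotone h4)

end order

section im

variable {G : Type*} [Group G] {Ω : Type*} [CompleteLinearOrder Ω] (ρ : G →* (Ω ≃o Ω))

lemma le_im (g k : G) (z : Ω) : z ≤ ρ (g⁻¹ * k) z ↔ ρ g z ≤ ρ k z := by
  rw [map_mul, map_inv, RelIso.mul_apply, ← (ρ g).le_iff_le, RelIso.apply_inv_self]

lemma lt_im (g k : G) (z : Ω) : z < ρ (g⁻¹ * k) z ↔ ρ g z < ρ k z := by
  rw [map_mul, map_inv, RelIso.mul_apply, ← (ρ g).lt_iff_lt, RelIso.apply_inv_self]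


end im

end Pool.Agent.Helper52.OC
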